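import Pool.Agent.H24.CL.Targets

/-!
# Row BO of the board clv_modules: the inequality of Boas and Bellman
-/

set_option autoImplicit false

open Finset

namespace Pool.Agent.H49.CLV

theorem pf_BO : Pool.Agent.H24.CL.T_BO := by
  classical
  intro ι Y B x a Λ hΛ hG
  obtain ⟨z, hz⟩ : ∃ z : ι → ℂ, z = fun w => ∑ b ∈ B, x b * a w b := ⟨_, rfl⟩
  obtain ⟨A, hA⟩ : ∃ A : ℕ → ℂ, A = fun b => ∑ w ∈ Y, (starRingEnd ℂ) (z w) * a w b :=
    ⟨_, rfl⟩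
  obtain ⟨G, hGd⟩ : ∃ G : ι → ι → ℝ,
      G = fun w w' => ‖∑ b ∈ B, a w b * (starRingEnd ℂ) (a w' b)‖ := ⟨_, rfl⟩
  have hGsym : ∀ w w', G w w' = G w' w := by
    intro w w'
    rw [hGd]
    show ‖∑ b ∈ B, a w b * (starRingEnd ℂ) (a w' b)‖
      = ‖∑ b ∈ B, a w' b * (starRingEnd ℂ) (a w b)‖
    rw [← Complex.norm_conj (∑ b ∈ B, a w b * (starRingEnd ℂ) (a w' b)), map_sum]
    congr 1
    refine Finset.sum_congr rfl fun b _ => ?_
    rw [map_mul, Complex.conj_conj]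
    ring
  have hG0 : ∀ w w', 0 ≤ G w w' := by
    intro w w'
    rw [hGd]
    exact norm_nonneg _
  have hGrow : ∀ w ∈ Y, ∑ w' ∈ Y, G w w' ≤ Λ := by
    intro w hw
    rw [hGd]
    exact hG w hw
  obtain ⟨S, hS⟩ : ∃ S : ℝ, S = ∑ w ∈ Y, ‖z w‖ ^ 2 := ⟨_, rfl⟩
  obtain ⟨Xs, hXs⟩ : ∃ Xs : ℝ, Xs = ∑ b ∈ B, ‖x b‖ ^ 2 := ⟨_, rfl⟩
  obtain ⟨Q, hQ⟩ : ∃ Q : ℝ, Q = ∑ b ∈ B, ‖A b‖ ^ 2 := ⟨_, rfl⟩
  have hS0 : 0 ≤ S := by
    rw [hS]
    exact Finset.sum_nonneg fun w _ => sq_nonneg _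
  have hX0 : 0 ≤ Xs := by
    rw [hXs]
    exact Finset.sum_nonneg fun w _ => sq_nonneg _
  -- first identity
  have h1 : ((S : ℝ) : ℂ) = ∑ b ∈ B, x b * A b := by
    have e1 : ∑ b ∈ B, x b * A b = ∑ w ∈ Y, (starRingEnd ℂ) (z w) * z w := by
      rw [hA]
      simp only [Finset.mul_sum]
      rw [Finset.sum_comm]
      refine Finset.sum_congr rfl fun w _ => ?_
      conv_rhs => rw [show z w = ∑ b ∈ B, x b * a w b from by rw [hz]]
      rw [Finset.mul_sum]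
      refine Finset.sum_congr rfl fun b _ => ?_
      rw [hz]
      ring
    rw [e1, hS]
    push_cast
    refine Finset.sum_congr rfl fun w _ => ?_
    rw [← Complex.conj_mul']
  -- second identity
  have h2 : ((Q : ℝ) : ℂ) = ∑ w ∈ Y, ∑ w' ∈ Y,
      ((starRingEnd ℂ) (z w) * z w') * ∑ b ∈ B, a w b * (starRingEnd ℂ) (a w' b) := by
    have e1 : ∀ b, ((‖A b‖ ^ 2 : ℝ) : ℂ) = ∑ w ∈ Y, ∑ w' ∈ Y,
        ((starRingEnd ℂ) (z w) * z w') * (a w b * (starRingEnd ℂ) (a w' b)) := by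
      intro b
      push_cast
      rw [← Complex.mul_conj']
      rw [hA]
      show (∑ w ∈ Y, (starRingEnd ℂ) (z w) * a w b)
        * (starRingEnd ℂ) (∑ w ∈ Y, (starRingEnd ℂ) (z w) * a w b) = _
      rw [map_sum, Finset.sum_mul_sum]
      refine Finset.sum_congr rfl fun w _ => Finset.sum_congr rfl fun w' _ => ?_
      rw [map_mul, Complex.conj_conj]
      ring
    have e2 : ((Q : ℝ) : ℂ) = ∑ b ∈ B, ∑ w ∈ Y, ∑ w' ∈ Y,
        ((starRingEnd ℂ) (z w) * z w') * (a w b * (starRingEnd ℂ) (a w' b)) := by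
      rw [hQ, Complex.ofReal_sum]
      exact Finset.sum_congr rfl fun b _ => e1 b
    rw [e2, Finset.sum_comm]
    refine Finset.sum_congr rfl fun w _ => ?_
    rw [Finset.sum_comm]
    refine Finset.sum_congr rfl fun w' _ => ?_
    rw [Finset.mul_sum]
  -- the bound for S by Cauchy-Schwarz
  have h3 : S ^ 2 ≤ Xs * Q := by
    have e1 : S ≤ ∑ b ∈ B, ‖x b‖ * ‖A b‖ := by
      calc S = ‖((S : ℝ) : ℂ)‖ := by
            rw [Complex.norm_real, Real.norm_of_nonneg hS0]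
        _ = ‖∑ b ∈ B, x b * A b‖ := by rw [h1]
        _ ≤ ∑ b ∈ B, ‖x b * A b‖ := norm_sum_le _ _
        _ = ∑ b ∈ B, ‖x b‖ * ‖A b‖ := Finset.sum_congr rfl fun b _ => norm_mul _ _
    have e2 : (∑ b ∈ B, ‖x b‖ * ‖A b‖) ^ 2 ≤ Xs * Q := by
      rw [hXs, hQ]
      exact Finset.sum_mul_sq_le_sq_mul_sq B (fun b => ‖x b‖) (fun b => ‖A b‖)
    exact le_trans (pow_le_pow_left₀ hS0 e1 2) e2
  -- the bound for Q
  have h4 : Q ≤ Λ * S := by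
    have hQ0 : 0 ≤ Q := by
      rw [hQ]
      exact Finset.sum_nonneg fun w _ => sq_nonneg _
    have e1 : Q ≤ ∑ w ∈ Y, ∑ w' ∈ Y, (‖z w‖ * ‖z w'‖) * G w w' := by
      calc Q = ‖((Q : ℝ) : ℂ)‖ := by
            rw [Complex.norm_real, Real.norm_of_nonneg hQ0]
        _ = ‖∑ w ∈ Y, ∑ w' ∈ Y,
              ((starRingEnd ℂ) (z w) * z w') * ∑ b ∈ B, a w b * (starRingEnd ℂ) (a w' b)‖ := by
            rw [h2]
        _ ≤ ∑ w ∈ Y, ‖∑ w' ∈ Y,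
              ((starRingEnd ℂ) (z w) * z w') * ∑ b ∈ B, a w b * (starRingEnd ℂ) (a w' b)‖ :=
            norm_sum_le _ _
        _ ≤ ∑ w ∈ Y, ∑ w' ∈ Y, (‖z w‖ * ‖z w'‖) * G w w' := by
            refine Finset.sum_le_sum fun w _ => ?_
            refine le_trans (norm_sum_le _ _) (le_of_eq ?_)
            refine Finset.sum_congr rfl fun w' _ => ?_
            rw [norm_mul, norm_mul, Complex.norm_conj, hGd]
    have e2 : ∑ w ∈ Y, ∑ w' ∈ Y, (‖z w‖ * ‖z w'‖) * G w w'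
        ≤ ∑ w ∈ Y, ∑ w' ∈ Y, (‖z w‖ ^ 2 / 2 * G w w' + ‖z w'‖ ^ 2 / 2 * G w' w) := by
      refine Finset.sum_le_sum fun w _ => Finset.sum_le_sum fun w' _ => ?_
      rw [hGsym w' w]
      have h5 : ‖z w‖ * ‖z w'‖ ≤ ‖z w‖ ^ 2 / 2 + ‖z w'‖ ^ 2 / 2 := by
        nlinarith [sq_nonneg (‖z w‖ - ‖z w'‖)]
      nlinarith [mul_le_mul_of_nonneg_right h5 (hG0 w w')]
    have e3 : ∑ w ∈ Y, ∑ w' ∈ Y, (‖z w‖ ^ 2 / 2 * G w w' + ‖z w'‖ ^ 2 / 2 * G w' w)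
        = ∑ w ∈ Y, ‖z w‖ ^ 2 * ∑ w' ∈ Y, G w w' := by
      simp only [Finset.sum_add_distrib]
      have e4 : ∑ w ∈ Y, ∑ w' ∈ Y, ‖z w'‖ ^ 2 / 2 * G w' w
          = ∑ w ∈ Y, ∑ w' ∈ Y, ‖z w‖ ^ 2 / 2 * G w w' := Finset.sum_comm
      rw [e4, ← Finset.sum_add_distrib]
      refine Finset.sum_congr rfl fun w _ => ?_
      rw [← Finset.sum_add_distrib, Finset.mul_sum]
      refine Finset.sum_congr rfl fun w' _ => ?_
      ring
    have e5 : ∑ w ∈ Y, ‖z w‖ ^ 2 * ∑ w' ∈ Y, G w w' ≤ Λ * S := by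
      rw [hS, Finset.mul_sum]
      refine Finset.sum_le_sum fun w hw => ?_
      rw [mul_comm]
      exact mul_le_mul_of_nonneg_right (hGrow w hw) (sq_nonneg _)
    calc Q ≤ _ := e1
      _ ≤ _ := e2
      _ = _ := e3
      _ ≤ _ := e5
  have hgoal : S ≤ Λ * Xs := by
    rcases hS0.eq_or_lt with h0 | h0
    · rw [← h0]
      exact mul_nonneg hΛ hX0
    · have h5 : S * S ≤ (Λ * Xs) * S := by
        have := mul_le_mul_of_nonneg_left h4 hX0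
        nlinarith
      exact le_of_mul_le_mul_right h5 h0
  have hfin : ∑ w ∈ Y, ‖∑ b ∈ B, x b * a w b‖ ^ 2 = S := by
    rw [hS, hz]
  rw [hfin, ← hXs]
  exact hgoal

end Pool.Agent.H49.CLV
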